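import Mathlib

set_option autoImplicit false

namespace Pool.Agent.Results.MP_0638d8_an.No

open Set Filter Topology MeasureTheory ProbabilityTheory Metric
open scoped ENNReal

/-- `ρ_n(A)` -/
noncomputable def rhoN {S : Type} [MetricSpace S] (A : Set S) (n : ℕ) : ℝ≥0∞ :=
  ⨆ (p : Fin n → S) (_ : ∀ i, p i ∈ A),
    ∏ ij ∈ Finset.univ.filter (fun ij : Fin n × Fin n => ij.1 < ij.2),
      edist (p ij.1) (p ij.2) ^ (2 / ((n : ℝ) * (n - 1)))

/-- the transfinite diameter -/
noncomputable def rho {S : Type} [MetricSpace S] (A : Set S) : ℝ≥0∞ := limsup (rhoN A) atTop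

/-- the essential transfinite diameter -/
noncomputable def essRho {S : Type} [MetricSpace S] [MeasurableSpace S] (P : Measure S)
    (A : Set S) : ℝ≥0∞ :=
  ⨅ (B : Set S) (_ : B ⊆ A) (_ : MeasurableSet B) (_ : P B = P A), rho B

noncomputable def p : Measure ℕ := geometricMeasure ⟨1 / 2, by norm_num, by norm_num⟩

instance : IsProbabilityMeasure p := by unfold p; infer_instance

theorem p_pos (n : ℕ) : 0 < p {n} := by
  have h1 : (⟨1 / 2, by norm_num, by norm_num⟩ : unitInterval) ≠ 0 := by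
    intro h; have := congrArg Subtype.val h; norm_num at this
  have h2 : (⟨1 / 2, by norm_num, by norm_num⟩ : unitInterval) ≠ 1 := by
    intro h; have := congrArg Subtype.val h; norm_num at this
  rw [p, geometricMeasure_singleton h1]
  exact ENNReal.ofReal_pos.2 (geometricMeasure_pos h1 h2 n)

theorem exists_J : ∃ J : ℕ → ℕ, Monotone J ∧ (∀ k, k ≤ J k) ∧
    ∀ k, p (Ioi (J k)) ≤ 2⁻¹ ^ (k + 2) := by
  have h : Tendsto (fun j => p (Ioi j)) atTop (𝓝 (p (⋂ j, Ioi j))) :=
    tendsto_measure_iInter_atTop (fun _ => MeasurableSet.of_discrete.nullMeasurableSet)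
      (fun a b hab => Ioi_subset_Ioi hab) ⟨0, measure_ne_top _ _⟩
  have e : (⋂ j : ℕ, Ioi j) = ∅ := by
    ext x; simp only [mem_iInter, mem_Ioi, mem_empty_iff_false, iff_false, not_forall]
    exact ⟨x, lt_irrefl x⟩
  rw [e, measure_empty] at h
  have h2 (k : ℕ) : ∃ j, p (Ioi j) ≤ 2⁻¹ ^ (k + 2) :=
    (h.eventually (ge_mem_nhds (ENNReal.pow_pos (by simp) _))).exists
  choose j hj using h2
  refine ⟨fun k => k + ∑ i ∈ Finset.range (k + 1), j i, fun a b hab => add_le_add hab
    (Finset.sum_le_sum_of_subset (Finset.range_mono (by omega))), fun k => Nat.le_add_right _ _,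
    fun k => (measure_mono (Ioi_subset_Ioi ?_)).trans (hj k)⟩
  exact (Finset.single_le_sum (fun _ _ => Nat.zero_le _)
    (Finset.self_mem_range_succ k)).trans (Nat.le_add_left _ _)

noncomputable def J : ℕ → ℕ := exists_J.choose

noncomputable def M (k : ℕ) : ℕ := (J (2 * k) + 1) ^ k

theorem M_mono : Monotone M := fun a b h =>
  (Nat.pow_le_pow_left (Nat.succ_le_succ (exists_J.choose_spec.1 (by omega))) _).trans
    (Nat.pow_le_pow_right (Nat.succ_pos _) h)

theorem le_M (k : ℕ) : k ≤ M k := by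
  rcases Nat.eq_zero_or_pos k with rfl | hk
  · exact Nat.zero_le _
  · have := exists_J.choose_spec.2.1 (2 * k)
    exact le_trans (show k ≤ J (2 * k) + 1 by unfold J; omega) (Nat.le_self_pow hk.ne' _)

noncomputable def eps (k : ℕ) : ℝ := Real.exp (-((k * M (k + 1) ^ 2 : ℕ) : ℝ))

theorem eps_pos (k : ℕ) : 0 < eps k := Real.exp_pos _

theorem eps_anti : Antitone eps := fun a b h => by
  refine Real.exp_le_exp.2 (neg_le_neg (Nat.cast_le.2 ?_))
  exact Nat.mul_le_mul h (Nat.pow_le_pow_left (M_mono (by omega)) _)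

theorem eps_zero : eps 0 = 1 := by simp [eps]

theorem eps_small {r : ℝ} (hr : 0 < r) : ∃ k, eps k < r := by
  obtain ⟨k, hk⟩ := (((Real.tendsto_exp_neg_atTop_nhds_zero.comp
    tendsto_natCast_atTop_atTop).eventually (gt_mem_nhds hr))).exists
  refine ⟨k, lt_of_le_of_lt (Real.exp_le_exp.2 (neg_le_neg (Nat.cast_le.2 ?_))) hk⟩
  exact Nat.le_mul_of_pos_right _ (pow_pos (lt_of_lt_of_le (Nat.succ_pos k) (le_M _)) _)

def S : Type := ℕ → ℕ

open Classical in
noncomputable def d (x y : ℕ → ℕ) : ℝ := if x = y then 0 else eps (PiNat.firstDiff x y)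

theorem d_nonneg (x y : ℕ → ℕ) : 0 ≤ d x y := by
  unfold d; split_ifs
  exacts [le_rfl, (eps_pos _).le]

theorem d_le {x y : ℕ → ℕ} {k : ℕ} (h : ∀ i < k, x i = y i) : d x y ≤ eps k := by
  unfold d; split_ifs with hxy
  · exact (eps_pos _).le
  · refine eps_anti (not_lt.1 fun hl => PiNat.apply_firstDiff_ne hxy (h _ hl))

theorem d_comm (x y : ℕ → ℕ) : d x y = d y x := by
  by_cases h : x = y
  · rw [h]
  · rw [d, d, if_neg h, if_neg (Ne.symm h), PiNat.firstDiff_comm]

noncomputable instance : MetricSpace S where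
  dist := d
  dist_self x := by simp [d]
  dist_comm x y := d_comm x y
  dist_triangle x y z := by
    by_cases h1 : x = y
    · subst h1; simp [d]
    by_cases h2 : y = z
    · subst h2; simp [d]
    have a := d_nonneg x y
    have b := d_nonneg y z
    rcases le_total (PiNat.firstDiff x y) (PiNat.firstDiff y z) with h | h
    · have : d x z ≤ eps (PiNat.firstDiff x y) := d_le fun i hi =>
        (PiNat.apply_eq_of_lt_firstDiff hi).trans (PiNat.apply_eq_of_lt_firstDiff (hi.trans_le h))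
      have e : d x y = eps (PiNat.firstDiff x y) := if_neg h1
      linarith
    · have : d x z ≤ eps (PiNat.firstDiff y z) := d_le fun i hi =>
        (PiNat.apply_eq_of_lt_firstDiff (hi.trans_le h)).trans (PiNat.apply_eq_of_lt_firstDiff hi)
      have e : d y z = eps (PiNat.firstDiff y z) := if_neg h2
      linarith
  eq_of_dist_eq_zero {x y} h := by
    by_contra hxy
    have e : d x y = eps (PiNat.firstDiff x y) := if_neg hxy
    exact (eps_pos _).ne' (e.symm.trans h)

instance : MeasurableSpace S := MeasurableSpace.pi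

noncomputable def P0 : Measure (ℕ → ℕ) := Measure.infinitePi fun _ => p

instance : IsProbabilityMeasure P0 := by unfold P0; infer_instance

def sh (x : ℕ → ℕ) : ℕ → ℕ := fun i => x (i + 1)

theorem sh_iter (n : ℕ) (x : ℕ → ℕ) : sh^[n] x = fun i => x (i + n) := by
  induction n generalizing x with
  | zero => rfl
  | succ n ih => rw [Function.iterate_succ_apply, ih]; rfl

theorem mp : MeasurePreserving sh P0 P0 :=
  ⟨measurable_pi_lambda _ fun _ => measurable_pi_apply _,
    Measure.map_infinitePi_infinitePi_of_inj (P := fun _ : ℕ => p) (f := fun i : ℕ => i + 1)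
      (add_left_injective 1)⟩

theorem mix {A B : Set (ℕ → ℕ)} (hA : MeasurableSet A) (hB : MeasurableSet B) :
    Tendsto (fun n => P0 (sh^[n] ⁻¹' A ∩ B)) atTop (𝓝 (P0 A * P0 B)) := by
  have hm (n : ℕ) : MeasurableSet (sh^[n] ⁻¹' A) := (mp.iterate n).measurable hA
  have he (n : ℕ) : P0 (sh^[n] ⁻¹' A) = P0 A :=
    (mp.iterate n).measure_preimage hA.nullMeasurableSet
  induction B, hB using MeasurableSpace.induction_on_inter
    generateFrom_measurableCylinders.symm isPiSystem_measurableCylinders with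
  | empty => simp
  | basic B hB =>
    obtain ⟨s, T, hT, rfl⟩ := (mem_measurableCylinders _).1 hB
    refine tendsto_const_nhds.congr' ?_
    filter_upwards [eventually_gt_atTop (s.sup id)] with n hn
    have hI : iIndepFun (fun i (ω : ℕ → ℕ) => ω i) P0 :=
      iIndepFun_infinitePi (X := fun _ ω => ω) fun _ => measurable_id
    have hd : Disjoint (Ici n) (s : Set ℕ) := disjoint_left.2 fun i h1 h2 =>
      absurd (Finset.le_sup (f := id) h2) (not_le.2 (hn.trans_le h1))
    have := indep_iSup_of_disjoint (fun i => (measurable_pi_apply i).comap_le) hI hd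
    rw [← he n]
    refine ((Indep_iff _ _ _).1 this _ _ ?_ ?_).symm
    · have : Measurable[cylinderEvents (X := fun _ : ℕ => ℕ) (Ici n)] (sh^[n]) := by
        rw [show sh^[n] = fun x i => x (i + n) from funext (sh_iter n)]
        exact @measurable_pi_lambda _ _ _ (cylinderEvents (Ici n)) _ _ fun i =>
          measurable_cylinderEvent_apply (X := fun _ : ℕ => ℕ) (Nat.le_add_left n i)
      exact this hA
    · have : Measurable[cylinderEvents (X := fun _ : ℕ => ℕ) (s : Set ℕ)] s.restrict :=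
        @measurable_pi_lambda _ _ _ (cylinderEvents (s : Set ℕ)) _ _ fun i =>
          measurable_cylinderEvent_apply (X := fun _ : ℕ => ℕ) i.2
      exact this hT
  | compl B hB ih =>
    have e (n : ℕ) : P0 (sh^[n] ⁻¹' A ∩ Bᶜ) = P0 A - P0 (sh^[n] ⁻¹' A ∩ B) := by
      rw [← he n, ← sdiff_eq, ← measure_inter_add_sdiff (sh^[n] ⁻¹' A) hB,
        ENNReal.add_sub_cancel_left (measure_ne_top _ _)]
    simp only [e]
    rw [prob_compl_eq_one_sub hB, ENNReal.mul_sub (fun _ _ => measure_ne_top _ _), mul_one]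
    exact ENNReal.Tendsto.sub tendsto_const_nhds ih (Or.inl (measure_ne_top _ _))
  | iUnion f hd hf ih =>
    have e (n : ℕ) : P0 (sh^[n] ⁻¹' A ∩ ⋃ i, f i) = ∫⁻ i, P0 (sh^[n] ⁻¹' A ∩ f i) ∂Measure.count := by
      rw [inter_iUnion, measure_iUnion (fun i j h => (hd h).mono inter_subset_right
        inter_subset_right) fun i => (hm n).inter (hf i), lintegral_count]
    simp only [e]
    rw [measure_iUnion hd hf, ← ENNReal.tsum_mul_left, ← lintegral_count]
    refine tendsto_lintegral_of_dominated_convergence (fun i => P0 (f i))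
      (fun _ => Measurable.of_discrete) (fun n => ae_of_all _ fun i =>
        measure_mono inter_subset_right) ?_ (ae_of_all _ ih)
    rw [lintegral_count, ← measure_iUnion hd hf]
    exact measure_ne_top _ _

theorem img {B : Set (ℕ → ℕ)} (hB : MeasurableSet B) : MeasurableSet (sh '' B) := by
  have : sh '' B = ⋃ a : ℕ, (fun (y : ℕ → ℕ) (i : ℕ) => Nat.casesOn (motive := fun _ => ℕ) i a y) ⁻¹' B := by
    ext y
    simp only [mem_image, mem_iUnion, mem_preimage]
    refine ⟨?_, fun ⟨a, h⟩ => ⟨_, h, rfl⟩⟩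
    rintro ⟨x, hx, rfl⟩
    refine ⟨x 0, ?_⟩
    convert hx using 1
    funext i
    cases i <;> rfl
  rw [this]
  refine MeasurableSet.iUnion fun a => (measurable_pi_lambda _ fun i => ?_) hB
  cases i
  exacts [measurable_const, measurable_pi_apply _]

theorem ball_eq (x : ℕ → ℕ) {r : ℝ} (hr : 0 < r) : {y | d y x < r} =
    ⋃ k ∈ {k | eps k < r}, Set.pi (Finset.range k : Set ℕ) fun i => {x i} := by
  ext y
  simp only [mem_iUnion, mem_ofPred_eq, exists_prop]
  constructor
  · intro h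
    by_cases hxy : y = x
    · obtain ⟨k, hk⟩ := eps_small hr
      exact ⟨k, hk, fun i _ => by rw [hxy]; rfl⟩
    · have e : d y x = eps (PiNat.firstDiff y x) := if_neg hxy
      exact ⟨_, e ▸ h, fun i hi => PiNat.apply_eq_of_lt_firstDiff (by simpa using hi)⟩
  · rintro ⟨k, hk, h⟩
    exact lt_of_le_of_lt (d_le fun i hi => h i (by simpa using hi)) hk

def A0 : Set (ℕ → ℕ) := {x | ∀ k, x k ≤ J k}

theorem A0_meas : MeasurableSet A0 := by
  have : A0 = ⋂ k, (fun x : ℕ → ℕ => x k) ⁻¹' Iic (J k) := by ext; simp [A0]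
  rw [this]
  exact MeasurableSet.iInter fun k => measurable_pi_apply k MeasurableSet.of_discrete

theorem A0_pos : 0 < P0 A0 := by
  have h : P0 A0ᶜ ≤ 2⁻¹ := by
    calc P0 A0ᶜ ≤ P0 (⋃ k, (fun x : ℕ → ℕ => x k) ⁻¹' Ioi (J k)) :=
          measure_mono fun x hx => by simpa [A0] using hx
      _ ≤ ∑' k, P0 ((fun x : ℕ → ℕ => x k) ⁻¹' Ioi (J k)) := measure_iUnion_le _
      _ ≤ ∑' k : ℕ, 2⁻¹ ^ (k + 2) := ENNReal.tsum_le_tsum fun k => by
          rw [P0, (measurePreserving_eval_infinitePi (fun _ : ℕ => p) k).measure_preimage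
            MeasurableSet.of_discrete.nullMeasurableSet]
          exact exists_J.choose_spec.2.2 k
      _ = 2⁻¹ := by
          simp only [pow_succ _ (_ + 1), ENNReal.tsum_mul_right]
          rw [ENNReal.tsum_geometric_add_one, ENNReal.one_sub_inv_two, inv_inv,
            ENNReal.inv_mul_cancel (by simp) (by simp), one_mul]
  refine pos_iff_ne_zero.2 fun h0 => ?_
  rw [prob_compl_eq_one_sub A0_meas, h0, tsub_zero] at h
  simp at h

theorem edist_le (x y : S) {k : ℕ} (h : ∀ i < k, x i = y i) :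
    edist x y ≤ ENNReal.ofReal (eps k) := by
  rw [edist_dist]; exact ENNReal.ofReal_le_ofReal (d_le h)

theorem ex_nonneg (n : ℕ) : 0 ≤ 2 / ((n : ℝ) * (n - 1)) := by
  rcases n with _ | n
  · simp
  · push_cast; rw [add_sub_cancel_right]; positivity

theorem fac_le (n : ℕ) (x y : S) : edist x y ^ (2 / ((n : ℝ) * (n - 1))) ≤ 1 :=
  ENNReal.rpow_le_one (by simpa [eps_zero] using edist_le x y (k := 0) (by simp)) (ex_nonneg n)

theorem rhoN_univ (n : ℕ) : rhoN (univ : Set S) n = 1 := by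
  refine le_antisymm (iSup₂_le fun q _ => Finset.prod_le_one' fun _ _ => fac_le _ _ _) ?_
  refine le_iSup₂_of_le (fun i _ => i) (fun _ => trivial) (ge_of_eq ?_)
  refine Finset.prod_eq_one fun ij h => ?_
  have hl : (ij.1 : ℕ) ≠ ij.2 := (Finset.mem_filter.1 h).2.ne ∘ Fin.ext
  have hne : (fun _ : ℕ => (ij.1 : ℕ)) ≠ fun _ => (ij.2 : ℕ) := fun h => hl (congrFun h 0)
  have h0 : PiNat.firstDiff (fun _ : ℕ => (ij.1 : ℕ)) (fun _ => (ij.2 : ℕ)) = 0 :=
    Nat.eq_zero_of_not_pos fun h => hl (PiNat.apply_eq_of_lt_firstDiff h)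
  have : d (fun _ : ℕ => (ij.1 : ℕ)) (fun _ => (ij.2 : ℕ)) = 1 := by
    rw [d, if_neg hne, h0, eps_zero]
  rw [edist_dist]
  change ENNReal.ofReal (d (fun _ : ℕ => (ij.1 : ℕ)) (fun _ => (ij.2 : ℕ))) ^ _ = 1
  rw [this]
  simp

theorem rhoN_le {n k N : ℕ} (hk : n ≤ k) (h1 : M k < N) (h2 : N ≤ M (k + 1)) :
    rhoN (S := S) (sh^[n] '' A0) N ≤ ENNReal.ofReal (Real.exp (-k)) := by
  refine iSup₂_le fun q hq => ?_
  have hb (a : Fin N) (i : Fin k) : q a i < J (2 * k) + 1 := by
    obtain ⟨x, hx, e⟩ := hq a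
    have e2 : q a i = x (i + n) := by rw [← e]; exact congrFun (sh_iter n x) i
    rw [e2]
    exact Nat.lt_succ_of_le ((hx _).trans (exists_J.choose_spec.1 (by omega)))
  obtain ⟨a, b, hab, e⟩ := Fintype.exists_ne_map_eq_of_card_lt
    (fun (a : Fin N) (i : Fin k) => (⟨q a i, hb a i⟩ : Fin (J (2 * k) + 1)))
    (by rw [Fintype.card_fun, Fintype.card_fin, Fintype.card_fin, Fintype.card_fin]; exact h1)
  wlog hl : a < b generalizing a b
  · exact this b a hab.symm e.symm (lt_of_le_of_ne (not_lt.1 hl) hab.symm)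
  have hN : (2 : ℝ) ≤ N := by
    have := a.2; have := b.2; have : (a : ℕ) < b := hl
    exact_mod_cast (by omega : 2 ≤ N)
  refine (Finset.prod_le_prod_of_subset_of_le_one' (s := {(a, b)}) (by simpa using hl)
    fun _ _ _ => fac_le _ _ _).trans ?_
  rw [Finset.prod_singleton]
  refine (ENNReal.rpow_le_rpow (edist_le _ _ (k := k) fun i hi =>
    Fin.mk.inj (congrFun e ⟨i, hi⟩)) (ex_nonneg N)).trans ?_
  rw [ENNReal.ofReal_rpow_of_pos (eps_pos k), eps, ← Real.exp_mul]
  refine ENNReal.ofReal_le_ofReal (Real.exp_le_exp.2 ?_)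
  have h3 : (N : ℝ) ≤ M (k + 1) := by exact_mod_cast h2
  have h4 : (0 : ℝ) < N * (N - 1) := mul_pos (by linarith) (by linarith)
  have h5 : (0 : ℝ) ≤ k := Nat.cast_nonneg k
  have h6 : (N : ℝ) * (N - 1) ≤ 2 * M (k + 1) ^ 2 := by nlinarith
  rw [neg_mul, neg_le_neg_iff, ← mul_div_assoc, le_div_iff₀ h4]
  push_cast
  nlinarith [mul_le_mul_of_nonneg_left h6 h5]

theorem rhoN_lim (n : ℕ) : Tendsto (rhoN (S := S) (sh^[n] '' A0)) atTop (𝓝 0) := by
  have h : Tendsto (fun k : ℕ => ENNReal.ofReal (Real.exp (-k))) atTop (𝓝 0) := by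
    simpa using ENNReal.tendsto_ofReal (Real.tendsto_exp_neg_atTop_nhds_zero.comp
      tendsto_natCast_atTop_atTop)
  refine ENNReal.tendsto_nhds_zero.2 fun ε hε => ?_
  obtain ⟨K, hK⟩ := eventually_atTop.1 (ENNReal.tendsto_nhds_zero.1 h ε hε)
  filter_upwards [eventually_gt_atTop (M (max K n))] with N hN
  have hex : ∃ k, N ≤ M k := ⟨N, le_M N⟩
  have hs := Nat.find_spec hex
  have hlt : max K n < Nat.find hex := not_le.1 fun h => absurd (hs.trans (M_mono h)) (not_le.2 hN)
  obtain ⟨k, hk⟩ : ∃ k, Nat.find hex = k + 1 := ⟨Nat.find hex - 1, by omega⟩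
  have h1 : M k < N := not_le.1 (Nat.find_min hex (by omega))
  exact (rhoN_le (by omega) h1 (hk ▸ hs)).trans (hK k (by omega))

theorem result : ∃ (S : Type) (_ : MetricSpace S) (_ : MeasurableSpace S) (P : Measure S)
    (_ : IsProbabilityMeasure P) (ψ : S → S) (A : Set S),
    (∀ x r, 0 < r → MeasurableSet (ball x r) ∧ 0 < P (ball x r)) ∧
    MeasurePreserving ψ P P ∧
    (∀ A B, MeasurableSet A → MeasurableSet B →
      Tendsto (fun n => P (ψ^[n] ⁻¹' A ∩ B)) atTop (𝓝 (P A * P B))) ∧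
    (∀ B, MeasurableSet B → MeasurableSet (ψ '' B)) ∧
    MeasurableSet A ∧ 0 < P A ∧
    Tendsto (rhoN (univ : Set S)) atTop (𝓝 1) ∧
    (∀ n, Tendsto (rhoN (ψ^[n] '' A)) atTop (𝓝 0)) ∧
    ¬ Tendsto (fun n => rho (ψ^[n] '' A)) atTop (𝓝 (rho (univ : Set S))) ∧
    ¬ Tendsto (fun n => essRho P (ψ^[n] '' A)) atTop (𝓝 (rho (univ : Set S))) := by
  have hu : Tendsto (rhoN (univ : Set S)) atTop (𝓝 1) :=
    tendsto_const_nhds.congr fun n => (rhoN_univ n).symm
  have h0 (n : ℕ) : rho (S := S) (sh^[n] '' A0) = 0 := (rhoN_lim n).limsup_eq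
  have h1 : rho (univ : Set S) = 1 := hu.limsup_eq
  have hm (n : ℕ) : MeasurableSet (sh^[n] '' A0) := by
    induction n with
    | zero => simpa using A0_meas
    | succ n ih => rw [Function.iterate_succ', image_comp]; exact img ih
  have h2 (n : ℕ) : essRho (S := S) P0 (sh^[n] '' A0) = 0 :=
    le_antisymm (iInf_le_of_le (sh^[n] '' A0) (iInf_le_of_le Subset.rfl (iInf_le_of_le (hm n)
      (iInf_le_of_le rfl (h0 n).le)))) zero_le
  refine ⟨S, inferInstance, inferInstance, P0, inferInstanceAs (IsProbabilityMeasure P0), sh, A0,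
    fun x r hr => ?_, mp, fun A B => mix, fun B => img, A0_meas, A0_pos, hu, rhoN_lim, ?_, ?_⟩
  · change MeasurableSet {y : ℕ → ℕ | d y x < r} ∧ 0 < P0 {y : ℕ → ℕ | d y x < r}
    rw [ball_eq x hr]
    refine ⟨MeasurableSet.biUnion (to_countable _) fun k _ =>
      MeasurableSet.pi (to_countable _) fun _ _ => MeasurableSet.of_discrete, ?_⟩
    obtain ⟨k, hk⟩ := eps_small hr
    refine lt_of_lt_of_le ?_ (measure_mono (subset_biUnion_of_mem (u := fun k =>
      Set.pi (Finset.range k : Set ℕ) fun i => ({x i} : Set ℕ)) hk))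
    erw [P0, Measure.infinitePi_pi _ fun _ _ => MeasurableSet.of_discrete]
    exact pos_iff_ne_zero.2 (Finset.prod_ne_zero_iff.2 fun i _ => (p_pos _).ne')
  · intro h
    rw [h1] at h
    exact zero_ne_one (tendsto_nhds_unique tendsto_const_nhds (h.congr h0))
  · intro h
    rw [h1] at h
    exact zero_ne_one (tendsto_nhds_unique tendsto_const_nhds (h.congr h2))

end Pool.Agent.Results.MP_0638d8_an.No
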